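import Mathlib
import Pool.Agent.Lib.MP_f053ce_co.SmallOrder
import Pool.Agent.Lib.MP_f053ce_co.Final

/-!
# The exact value of `f_k(n)` for `k + 2 ≤ n ≤ 2 k - 1`
-/

namespace Pool.Agent.Results.MP_f053ce_co.ExactSmallOrder

open Pool.Agent.Lib.MP_f053ce_co

theorem result (k n : ℕ) (h1 : k + 2 ≤ n) (h2 : n ≤ 2 * k - 1) :
    (∃ G : SimpleGraph (Fin n), IsCritical k G) ∧
    f k n + (2 * (n - k) + 1) = n.choose 2 := by
  obtain ⟨r, rfl⟩ : ∃ r, k = r + 2 := ⟨k - 2, by omega⟩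
  obtain ⟨p, hp⟩ : ∃ p, p = n - (r + 2) := ⟨_, rfl⟩
  have hcrit : IsCritical (r + 2) (cc n (2 * p + 1)) :=
    cc_critical p r n (by omega) (by omega) (by omega)
  have hedges := cc_edges p n (by omega) (by omega)
  have hne : {e : ℕ | ∃ G : SimpleGraph (Fin n), IsCritical (r + 2) G ∧
      G.edgeSet.ncard = e}.Nonempty := ⟨_, _, hcrit, rfl⟩
  have hlow : (cc n (2 * p + 1)).edgeSet.ncard ≤ f (r + 2) n :=
    le_csSup (bdd (r + 2) n) ⟨_, hcrit, rfl⟩
  obtain ⟨G, hG, hGe⟩ := Nat.sSup_mem hne (bdd (r + 2) n)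
  have hGe' : G.edgeSet.ncard = f (r + 2) n := hGe
  have hup := nonedges r n (by omega) G hG
  rw [hGe'] at hup
  refine ⟨⟨_, hcrit⟩, ?_⟩
  have hch : 2 * n.choose 2 = n * (n - 1) := by
    rw [Nat.choose_two_right]
    exact Nat.mul_div_cancel' (Nat.even_mul_pred_self n).two_dvd
  omega

end Pool.Agent.Results.MP_f053ce_co.ExactSmallOrder
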