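import Mathlib
import Pool.Agent.Lib.MP_f053ce_co.Final

/-!
# The maximum number of edges of a critical k-chromatic graph

For every `k ≥ 4` and all large `n`, the maximum number `f_k(n)` of edges of a critical
`k`-chromatic graph of order `n` equals `(k - 3) / (2 (k - 2)) * n ^ 2` minus a quantity lying
between `n ^ (3/2) / (256 (k - 1) ^ 2)` and `9 (k - 3) n ^ (3/2)`.
-/

namespace Pool.Agent.Results.MP_f053ce_co.SecondOrder

open Pool.Agent.Lib.MP_f053ce_co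

theorem result (k n : ℕ) (hk : 4 ≤ k) (hn : 65536 * (k - 1) ^ 4 ≤ n) :
    (∃ G : SimpleGraph (Fin n), IsCritical k G) ∧
    ((k : ℝ) - 3) / (2 * ((k : ℝ) - 2)) * (n : ℝ) ^ 2
        - 9 * ((k : ℝ) - 3) * ((n : ℝ) * Real.sqrt n) ≤ (f k n : ℝ) ∧
    (f k n : ℝ) ≤ ((k : ℝ) - 3) / (2 * ((k : ℝ) - 2)) * (n : ℝ) ^ 2
        - 1 / (256 * ((k : ℝ) - 1) ^ 2) * ((n : ℝ) * Real.sqrt n) :=
  main k n hk hn

end Pool.Agent.Results.MP_f053ce_co.SecondOrder
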