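import Mathlib
import Pool.Agent.Lib.MP_f053ce_co.Universal
import Pool.Agent.Lib.MP_f053ce_co.Final

/-!
# A bound for the number of edges valid for all orders, sharp for complete graphs
-/

namespace Pool.Agent.Results.MP_f053ce_co.UniversalBound

open Pool.Agent.Lib.MP_f053ce_co

theorem result (k : ℕ) (hk : 3 ≤ k) :
    (∀ n : ℕ, ∀ G : SimpleGraph (Fin n), IsCritical k G →
      2 * (k - 2) * G.edgeSet.ncard ≤ n * ((k - 3) * n + 2)) ∧
    IsCritical k (⊤ : SimpleGraph (Fin k)) ∧
    2 * (k - 2) * (⊤ : SimpleGraph (Fin k)).edgeSet.ncard = k * ((k - 3) * k + 2) := by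
  classical
  obtain ⟨s, rfl⟩ : ∃ s, k = s + 3 := ⟨k - 3, by omega⟩
  have e1 : s + 3 - 2 = s + 1 := by omega
  have e2 : s + 3 - 3 = s := by omega
  rw [e1, e2]
  refine ⟨fun n G hG => universal s n G hG, complete_critical (s + 1), ?_⟩
  have h1 : (⊤ : SimpleGraph (Fin (s + 3))).edgeSet.ncard = (s + 3).choose 2 := by
    have h2 : (⊤ : SimpleGraph (Fin (s + 3))).edgeSet.ncard
        = (⊤ : SimpleGraph (Fin (s + 3))).edgeFinset.card := by
      rw [← SimpleGraph.coe_edgeFinset, Set.ncard_coe_finset]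
    rw [h2, SimpleGraph.card_edgeFinset_top_eq_card_choose_two, Fintype.card_fin]
  have hch : 2 * (s + 3).choose 2 = (s + 3) * (s + 2) := by
    rw [Nat.choose_two_right]
    exact Nat.mul_div_cancel' (Nat.even_mul_pred_self (s + 3)).two_dvd
  rw [h1]
  calc 2 * (s + 1) * (s + 3).choose 2 = (s + 1) * (2 * (s + 3).choose 2) := by ring
    _ = (s + 3) * (s * (s + 3) + 2) := by rw [hch]; ring

end Pool.Agent.Results.MP_f053ce_co.UniversalBound
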